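import Pool.Agent.N604.MW.Stm10

set_option autoImplicit false

/-!
Project AD (helper604), leaf ACIRC (helper736): the circle method.
-/

namespace Pool.Agent.N736.AD

open Finset MeasureTheory Filter
open Pool.Agent.N604.MW

lemma norm_e (x : ℝ) : ‖e x‖ = 1 := by
  unfold e
  rw [show (2 * (Real.pi : ℂ) * (x : ℂ) * Complex.I) = ((2 * Real.pi * x : ℝ) : ℂ) * Complex.I by
    push_cast; ring]
  exact Complex.norm_exp_ofReal_mul_I _

lemma e_add (x y : ℝ) : e (x + y) = e x * e y := by
  unfold e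
  rw [← Complex.exp_add]
  congr 1
  push_cast
  ring

lemma e_zero : e 0 = 1 := by
  unfold e
  simp

lemma e_sum {s : ℕ} (g : Fin s → ℝ) : e (∑ i, g i) = ∏ i, e (g i) := by
  unfold e
  rw [← Complex.exp_sum]
  congr 1
  push_cast
  rw [Finset.mul_sum, Finset.sum_mul]

lemma cont_e : Continuous e := by
  unfold e
  fun_prop

lemma norm_one_sub_e (x : ℝ) : ‖1 - e x‖ ≤ 2 * Real.pi * |x| := by
  have h := Real.norm_exp_I_mul_ofReal_sub_one_le (x := 2 * Real.pi * x)
  rw [norm_sub_rev]
  have e1 : e x = Complex.exp (Complex.I * ((2 * Real.pi * x : ℝ) : ℂ)) := by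
    unfold e
    congr 1
    push_cast
    ring
  rw [e1]
  refine h.trans ?_
  rw [Real.norm_eq_abs, abs_mul, abs_of_pos (by positivity : (0 : ℝ) < 2 * Real.pi)]

section
variable {s : ℕ} (A : Fin s → Finset ℤ) (f : Fin s → ℤ → ℝ)

/-- the product -/
noncomputable def FP (t : ℝ) : ℂ := ∏ i, SG (A i) (f i) t

/-- the integrand -/
noncomputable def GP (n : ℤ) (t : ℝ) : ℂ := (sq t : ℂ) * (∏ i, SG (A i) (f i) t) * e (-(t * n))

lemma cont_SG (i : Fin s) : Continuous (SG (A i) (f i)) := by
  unfold SG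
  refine continuous_finsetSum _ fun x _ => ?_
  exact cont_e.comp (continuous_id.mul continuous_const)

lemma cont_FP : Continuous (fun t => ∏ i, SG (A i) (f i) t) :=
  continuous_finsetProd _ fun i _ => cont_SG A f i

lemma norm_SG (i : Fin s) (t : ℝ) : ‖SG (A i) (f i) t‖ ≤ (A i).card := by
  unfold SG
  refine (norm_sum_le _ _).trans ?_
  simp [norm_e]

lemma norm_FP (t : ℝ) : ‖∏ i, SG (A i) (f i) t‖ ≤ ∏ i, ((A i).card : ℝ) := by
  rw [norm_prod]
  exact Finset.prod_le_prod (fun _ _ => norm_nonneg _) fun i _ => norm_SG A f i t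

lemma FP_eq (t : ℝ) : (∏ i, SG (A i) (f i) t) =
    ∑ x ∈ Fintype.piFinset A, e (t * ∑ i, f i (x i)) := by
  unfold SG
  rw [Finset.prod_univ_sum]
  refine Finset.sum_congr rfl fun x _ => ?_
  rw [Finset.mul_sum, e_sum]

variable (h : S_ATRI)
include h

lemma norm_GP (n : ℤ) (t : ℝ) : ‖GP A f n t‖ ≤ ‖∏ i, SG (A i) (f i) t‖ := by
  unfold GP
  have h1 := (h.2.1 t)
  rw [norm_mul, norm_mul, norm_e, mul_one, Complex.norm_real, Real.norm_of_nonneg h1.1]
  exact mul_le_of_le_one_left (norm_nonneg _) h1.2.1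

lemma int_GP (n : ℤ) : Integrable (GP A f n) := by
  have hsq : Integrable (fun t => (sq t : ℂ)) := h.1.ofReal
  have hm : AEStronglyMeasurable (GP A f n) := by
    unfold GP
    refine (hsq.aestronglyMeasurable.mul (cont_FP A f).aestronglyMeasurable).mul ?_
    exact (cont_e.comp (continuous_id.mul continuous_const).neg).aestronglyMeasurable
  refine (h.1.mul_const (∏ i, ((A i).card : ℝ))).mono' hm (Eventually.of_forall fun t => ?_)
  unfold GP
  have h1 := (h.2.1 t)
  rw [norm_mul, norm_mul, norm_e, mul_one, Complex.norm_real, Real.norm_of_nonneg h1.1]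
  exact mul_le_mul_of_nonneg_left (norm_FP A f t) h1.1

lemma RG_eq (n : ℤ) : ((RG A f n : ℝ) : ℂ) = ∫ t, GP A f n t := by
  have h1 : ∀ t, GP A f n t = ∑ x ∈ Fintype.piFinset A,
      (sq t : ℂ) * e (t * (∑ i, f i (x i) - n)) := by
    intro t
    unfold GP
    rw [FP_eq, Finset.mul_sum, Finset.sum_mul]
    refine Finset.sum_congr rfl fun x _ => ?_
    rw [mul_assoc, ← e_add]
    congr 2
    ring
  simp only [h1]
  rw [integral_finsetSum]
  · unfold RG
    push_cast
    refine Finset.sum_congr rfl fun x _ => ?_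
    rw [h.2.2]
  · intro x _
    have hsq : Integrable (fun t => (sq t : ℂ)) := h.1.ofReal
    refine h.1.mono' (hsq.aestronglyMeasurable.mul
      (cont_e.comp (continuous_id.mul continuous_const)).aestronglyMeasurable)
      (Eventually.of_forall fun t => ?_)
    have h2 := (h.2.1 t)
    rw [norm_mul, norm_e, mul_one, Complex.norm_real, Real.norm_of_nonneg h2.1]

end

theorem acirc (h : S_ATRI) : S_ACIRC := by
  intro s A f n W η0 η E1 hW hη0 hη hE
  have hW0 : (0 : ℝ) < W := by exact_mod_cast hW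
  have hWc : (W : ℂ) ≠ 0 := by exact_mod_cast hW0.ne'
  obtain ⟨Φ, hΦ⟩ : ∃ Φ : ℝ → ℂ, Φ = fun t => GP A f n t -
    (∑ j ∈ range W, GP A f (n + j) t) / (W : ℂ) := ⟨_, rfl⟩
  have hsumint : Integrable (fun t => ∑ j ∈ range W, GP A f (n + j) t) :=
    integrable_finsetSum _ fun (j : ℕ) _ => int_GP A f h (n + j)
  have hΦi : Integrable Φ := by
    rw [hΦ]
    exact (int_GP A f h n).sub (hsumint.div_const _)
  have hD : (((RG A f n - (∑ j ∈ range W, RG A f (n + j)) / W : ℝ)) : ℂ) = ∫ t, Φ t := by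
    rw [hΦ, integral_sub (int_GP A f h n) (hsumint.div_const _), integral_div,
      integral_finsetSum _ fun (j : ℕ) _ => int_GP A f h (n + j)]
    push_cast
    rw [RG_eq A f h n]
    congr 2
    refine Finset.sum_congr rfl fun j _ => ?_
    rw [RG_eq A f h (n + j)]
  have habs : |RG A f n - (∑ j ∈ range W, RG A f (n + j)) / W| = ‖∫ t, Φ t‖ := by
    rw [← hD, Complex.norm_real, Real.norm_eq_abs]
  rw [habs]
  obtain ⟨P, hP⟩ : ∃ P : ℝ, P = ∏ i, ((A i).card : ℝ) := ⟨_, rfl⟩
  have hP0 : 0 ≤ P := by rw [hP]; exact Finset.prod_nonneg fun _ _ => Nat.cast_nonneg _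
  -- the three sets
  obtain ⟨S1, hS1⟩ : ∃ S1 : Set ℝ, S1 = {t : ℝ | |t| < η0} := ⟨_, rfl⟩
  obtain ⟨S2, hS2⟩ : ∃ S2 : Set ℝ, S2 = {t : ℝ | η0 ≤ |t| ∧ |t| < η} := ⟨_, rfl⟩
  obtain ⟨S3, hS3⟩ : ∃ S3 : Set ℝ, S3 = {t : ℝ | η ≤ |t|} := ⟨_, rfl⟩
  have hm1 : MeasurableSet S1 := by
    rw [hS1]; exact measurableSet_lt continuous_abs.measurable measurable_const
  have hm3 : MeasurableSet S3 := by
    rw [hS3]; exact measurableSet_le measurable_const continuous_abs.measurable
  have hm2 : MeasurableSet S2 := by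
    rw [hS2]
    exact (measurableSet_le measurable_const continuous_abs.measurable).inter
      (measurableSet_lt continuous_abs.measurable measurable_const)
  have hsplit : ∫ t, Φ t = (∫ t in S1, Φ t) + ((∫ t in S2, Φ t) + ∫ t in S3, Φ t) := by
    have hd23 : Disjoint S2 S3 := by
      rw [Set.disjoint_left, hS2, hS3]
      rintro t ⟨-, h1⟩ h2
      exact absurd h1 (not_lt.2 h2)
    have hc : S1ᶜ = S2 ∪ S3 := by
      ext t
      rw [hS1, hS2, hS3]
      simp only [Set.mem_compl_iff, Set.mem_ofPred_eq, Set.mem_union, not_lt]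
      constructor
      · intro h1
        rcases lt_or_ge |t| η with h2 | h2
        · exact Or.inl ⟨h1, h2⟩
        · exact Or.inr h2
      · rintro (h1 | h1)
        · exact h1.1
        · exact hη.trans h1
    rw [← integral_add_compl hm1 hΦi, hc,
      setIntegral_union hd23 hm3 hΦi.integrableOn hΦi.integrableOn]
  -- pointwise bounds
  have hb2 : ∀ t, ‖Φ t‖ ≤ 2 * ‖∏ i, SG (A i) (f i) t‖ := by
    intro t
    rw [hΦ]
    simp only
    refine (norm_sub_le _ _).trans ?_
    have h1 := norm_GP A f h n t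
    have h2 : ‖(∑ j ∈ range W, GP A f (n + j) t) / (W : ℂ)‖ ≤ ‖∏ i, SG (A i) (f i) t‖ := by
      rw [norm_div, Complex.norm_natCast, div_le_iff₀ hW0]
      refine (norm_sum_le _ _).trans ?_
      refine (Finset.sum_le_sum fun (j : ℕ) _ => norm_GP A f h (n + j) t).trans ?_
      rw [Finset.sum_const, card_range, nsmul_eq_mul, mul_comm]
    linarith
  have hb1 : ∀ t, ‖Φ t‖ ≤ P * (2 * Real.pi * |t| * W) := by
    intro t
    have e1 : Φ t = (∑ j ∈ range W, (GP A f n t - GP A f (n + j) t)) / (W : ℂ) := by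
      rw [hΦ]
      simp only
      rw [Finset.sum_sub_distrib, Finset.sum_const, card_range, nsmul_eq_mul, sub_div,
        mul_div_cancel_left₀ _ hWc]
    rw [e1, norm_div, Complex.norm_natCast, div_le_iff₀ hW0]
    refine (norm_sum_le _ _).trans ?_
    have h3 : ∀ j ∈ range W, ‖GP A f n t - GP A f (n + j) t‖ ≤ P * (2 * Real.pi * |t| * W) := by
      intro j hj
      have hjW : (j : ℝ) ≤ W := by
        have := Finset.mem_range.1 hj
        exact_mod_cast this.le
      have e2 : GP A f n t - GP A f (n + j) t = GP A f n t * (1 - e (-(t * j))) := by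
        unfold GP
        have e3 : e (-(t * ((n + (j : ℤ) : ℤ) : ℝ))) = e (-(t * n)) * e (-(t * j)) := by
          rw [← e_add]
          congr 1
          push_cast
          ring
        rw [e3]
        ring
      rw [e2, norm_mul]
      have h4 : ‖GP A f n t‖ ≤ P := by
        rw [hP]
        exact (norm_GP A f h n t).trans (norm_FP A f t)
      have h5 : ‖1 - e (-(t * j))‖ ≤ 2 * Real.pi * |t| * W := by
        refine (norm_one_sub_e _).trans ?_
        rw [abs_neg, abs_mul, Nat.abs_cast, ← mul_assoc]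
        exact mul_le_mul_of_nonneg_left hjW (by positivity)
      exact mul_le_mul h4 h5 (norm_nonneg _) hP0
    refine (Finset.sum_le_sum h3).trans ?_
    rw [Finset.sum_const, card_range, nsmul_eq_mul, mul_comm]
  -- first part
  have hp1 : ‖∫ t in S1, Φ t‖ ≤ 16 * W * η0 ^ 2 * P := by
    have hvol : volume S1 = ENNReal.ofReal (2 * η0) := by
      have : S1 = Metric.ball 0 η0 := by
        rw [hS1]; ext t; simp
      rw [this, Real.volume_ball]
    have h1 : ‖∫ t in S1, Φ t‖ ≤ (P * (2 * Real.pi * η0 * W)) * (volume.real S1) := by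
      refine norm_setIntegral_le_of_norm_le_const (by rw [hvol]; exact ENNReal.ofReal_lt_top) ?_
      intro t ht
      rw [hS1] at ht
      refine (hb1 t).trans ?_
      have ht' : |t| ≤ η0 := le_of_lt ht
      gcongr
    have h2 : volume.real S1 = 2 * η0 := by
      rw [measureReal_def, hvol, ENNReal.toReal_ofReal (by positivity)]
    rw [h2] at h1
    refine h1.trans ?_
    have hpi : Real.pi ≤ 4 := Real.pi_le_four
    calc P * (2 * Real.pi * η0 * W) * (2 * η0) = (4 * Real.pi) * (W * η0 ^ 2 * P) := by ring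
      _ ≤ 16 * (W * η0 ^ 2 * P) := by
          apply mul_le_mul_of_nonneg_right _ (by positivity)
          linarith
      _ = _ := by ring
  -- second part
  have hcont : Continuous (fun t => ∏ i, ‖SG (A i) (f i) t‖) :=
    continuous_finsetProd _ fun i _ => (cont_SG A f i).norm
  have hArc : Arc η0 η ⊆ Metric.closedBall 0 η := by
    intro t ht
    rw [mem_closedBall_zero_iff, Real.norm_eq_abs]
    exact ht.2
  have hiArc : IntegrableOn (fun t => ∏ i, ‖SG (A i) (f i) t‖) (Arc η0 η) :=
    (hcont.continuousOn.integrableOn_compact (isCompact_closedBall 0 η)).mono_set hArc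
  have hp2 : ‖∫ t in S2, Φ t‖ ≤ 2 * ∫ t in Arc η0 η, ∏ i, ‖SG (A i) (f i) t‖ := by
    have hsub : S2 ⊆ Arc η0 η := by
      rw [hS2]
      rintro t ⟨h1, h2⟩
      exact ⟨h1, h2.le⟩
    have h1 : ‖∫ t in S2, Φ t‖ ≤ ∫ t in S2, 2 * ∏ i, ‖SG (A i) (f i) t‖ := by
      refine norm_integral_le_of_norm_le ((hiArc.mono_set hsub).const_mul 2)
        (Eventually.of_forall fun t => ?_)
      have := hb2 t
      rwa [norm_prod] at this
    refine h1.trans ?_
    rw [integral_const_mul]
    refine mul_le_mul_of_nonneg_left ?_ (by norm_num)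
    exact setIntegral_mono_set hiArc (Eventually.of_forall fun t =>
      Finset.prod_nonneg fun _ _ => norm_nonneg _) (Eventually.of_forall hsub)
  -- third part
  have hp3 : ‖∫ t in S3, Φ t‖ ≤ 2 * E1 := by
    have e1 : ∫ t in S3, Φ t = EG A f η n - (∑ j ∈ range W, EG A f η (n + j)) / (W : ℂ) := by
      rw [hΦ, integral_sub (int_GP A f h n).integrableOn (hsumint.div_const _).integrableOn,
        integral_div, integral_finsetSum _ fun (j : ℕ) _ => (int_GP A f h (n + j)).integrableOn, hS3]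
      rfl
    rw [e1]
    refine (norm_sub_le _ _).trans ?_
    have h0 : ‖EG A f η n‖ ≤ E1 := by
      have := hE 0 (by omega)
      simpa using this
    have h2 : ‖(∑ j ∈ range W, EG A f η (n + j)) / (W : ℂ)‖ ≤ E1 := by
      rw [norm_div, Complex.norm_natCast, div_le_iff₀ hW0]
      refine (norm_sum_le _ _).trans ?_
      refine (Finset.sum_le_sum fun j hj => hE j (Finset.mem_range.1 hj)).trans ?_
      rw [Finset.sum_const, card_range, nsmul_eq_mul, mul_comm]
    linarith
  rw [hsplit, ← hP]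
  refine (norm_add_le _ _).trans ?_
  have := norm_add_le (∫ t in S2, Φ t) (∫ t in S3, Φ t)
  linarith

end Pool.Agent.N736.AD
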